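import Pool.Agent.Helper81.FreeL1C.Gamma

open Pool.Agent.Helper81.FreeL1C

namespace Pool.Agent.Results.MP_e5522a_an.NoCZeroInFree

/-- The real Banach space `ℓ₁(Γ)` of absolutely summable families indexed by `Γ`. -/
abbrev EllOne (Γ : Type*) : Type _ := lp (fun _ : Γ => ℝ) 1

/-- `Y` embeds isomorphically into `Z`: there is a bounded linear injective map from `Y` to `Z` with
closed range. -/
def Embeds (Y Z : Type*) [NormedAddCommGroup Y] [NormedSpace ℝ Y] [NormedAddCommGroup Z]
    [NormedSpace ℝ Z] : Prop :=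
  ∃ T : Y →L[ℝ] Z, Function.Injective T ∧ IsClosed (Set.range T)

/-- Let `M` be a metric space with base point `o` which admits a bi-Lipschitz map `j` into `ℓ₁(Γ)` for
some index set `Γ`; for example `Γ = ℕ`, `M = ℓ₁`, `o = 0` and `j` the identity. Then `c₀` does not embed
isomorphically into the Lipschitz-free space `F(M)`. -/
theorem result {Γ M : Type*} [MetricSpace M] (o : M) (j : M → EllOne Γ) (A B : ℝ) (hA : 0 < A)
    (hj : ∀ x y, A * dist x y ≤ dist (j x) (j y) ∧ dist (j x) (j y) ≤ B * dist x y) :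
    ¬ Embeds (ZeroAtInftyContinuousMap ℕ ℝ) (FreeSpace M o) := by
  rintro ⟨T, h1, h2⟩
  exact main o j A B hA hj T h1 h2

/-- The case asked for: `c₀` does not embed isomorphically into `F(ℓ₁)`. -/
theorem ellOne : ¬ Embeds (ZeroAtInftyContinuousMap ℕ ℝ) (FreeSpace (EllOne ℕ) 0) :=
  result 0 (fun x => x) 1 1 one_pos fun _ _ => by simp

end Pool.Agent.Results.MP_e5522a_an.NoCZeroInFree
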